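import Pool.Agent.V1121.PF.IterGap

set_option autoImplicit false
open scoped Pointwise

namespace Pool.Agent.Results.MP_626a77_co.IteratedSumsetsProg

/-- Freiman theorem in torsion-free groups, with proper progressions and polynomial bounds, for
iterated sumsets: if the `n`-fold sumset of the finite nonempty set `A` has at most `L |A|`
elements, where `n ≥ 2` and `log (2 L) ≤ n ^ k`, then `A` is covered by `(2 L) ^ (113000 k)`
translates of a proper progression of rank at most `420 (1 + log (2 L) / log n)` and size at most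
`|A|`, one of which contains at least `|A| / (2 L) ^ (113000 k)` points of `A`. -/
theorem result {Z : Type*} [AddCommGroup Z] [DecidableEq Z]
    (htf : ∀ (n : ℕ) (x : Z), n ≠ 0 → n • x = 0 → x = 0) (k n : ℕ) (hk : 1 ≤ k) (hn : 2 ≤ n)
    (L : ℝ) (A : Finset Z) (hA : A.Nonempty)
    (hL : (((Fintype.piFinset fun _ : Fin n => A).image fun f => ∑ i, f i).card : ℝ) ≤
      L * (A.card : ℝ))
    (hkn : Real.log (2 * L) ≤ (n : ℝ) ^ k) :
    ∃ (d : ℕ) (v : Fin d → Z) (N : Fin d → ℕ) (T : Finset Z),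
      (d : ℝ) ≤ 420 * (1 + Real.log (2 * L) / Real.log n) ∧ (∀ i, 1 ≤ N i) ∧
      (∀ a b : Fin d → ℕ, (∀ i, a i < N i) → (∀ i, b i < N i) →
        ∑ i, a i • v i = ∑ i, b i • v i → a = b) ∧
      ∏ i, N i ≤ A.card ∧
      (T.card : ℝ) ≤ (2 * L) ^ (113000 * k) ∧
      (∀ a ∈ A, ∃ t ∈ T, ∃ c : Fin d → ℕ, (∀ i, c i < N i) ∧ a = t + ∑ i, c i • v i) ∧
      ∃ t ∈ T, ∃ S ⊆ A, (A.card : ℝ) / (2 * L) ^ (113000 * k) ≤ (S.card : ℝ) ∧
        ∀ a ∈ S, ∃ c : Fin d → ℕ, (∀ i, c i < N i) ∧ a = t + ∑ i, c i • v i := by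
  classical
  obtain ⟨d, v, N, T, hd, hN, hprop, hvol, hT, hcov⟩ :=
    V1121.PF.iterated_gap' htf hk hn hA hL hkn
  obtain ⟨t, ht, hcard⟩ := H112.cover_pigeonhole hA
    (fun t a => ∃ c : Fin d → ℕ, (∀ i, c i < N i) ∧ a = t + ∑ i, c i • v i) hcov
  refine ⟨d, v, N, T, hd, hN, hprop, hvol, hT, hcov, t, ht, _, Finset.filter_subset _ _, ?_,
    fun a ha => (Finset.mem_filter.1 ha).2⟩
  have hTpos : (0 : ℝ) < T.card := by
    exact_mod_cast Finset.card_pos.2 ⟨t, ht⟩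
  have hpos : (0 : ℝ) < (2 * L) ^ (113000 * k) := lt_of_lt_of_le hTpos hT
  rw [div_le_iff₀ hpos]
  have h1 : (A.card : ℝ) ≤ T.card * (A.filter fun a =>
      ∃ c : Fin d → ℕ, (∀ i, c i < N i) ∧ a = t + ∑ i, c i • v i).card := by
    exact_mod_cast hcard
  refine h1.trans ?_
  rw [mul_comm]
  exact mul_le_mul_of_nonneg_left hT (Nat.cast_nonneg _)

end Pool.Agent.Results.MP_626a77_co.IteratedSumsetsProg
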